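import Pool.Agent.W869.AV.Wrap

/-!
# Fixed points of automorphisms of `P(ω₁)/Fin`
-/

set_option autoImplicit false

namespace Pool.Agent.W265.FP

open Set Pool.Agent.W869.AV
open Cardinal hiding univ

/-- The class of a set modulo the finite sets. -/
abbrev cf {Λ : Type} (A : Set Λ) : Quo ℵ₀ le_rfl Λ := cls le_rfl A

variable {Λ Λ' : Type}

theorem le_fin {A B : Set Λ} : cf A ≤ cf B ↔ (A \ B).Finite := by
  rw [cls_le_iff]
  exact Cardinal.lt_aleph0_iff_set_finite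

theorem eq_fin {A B : Set Λ} : cf A = cf B ↔ (A \ B).Finite ∧ (B \ A).Finite := by
  rw [le_antisymm_iff, le_fin, le_fin]

theorem exists_cf (q : Quo ℵ₀ le_rfl Λ) : ∃ A : Set Λ, cf A = q := exists_cls q

theorem bot_le' (q : Quo ℵ₀ le_rfl Λ) : cf (∅ : Set Λ) ≤ q := by
  obtain ⟨A, rfl⟩ := exists_cf q
  rw [le_fin, Set.empty_sdiff]
  exact Set.finite_empty

theorem map_bot' (φ : Quo ℵ₀ le_rfl Λ ≃o Quo ℵ₀ le_rfl Λ') : φ (cf (∅ : Set Λ)) = cf (∅ : Set Λ') :=
  le_antisymm ((φ.le_symm_apply).1 (bot_le' _)) (bot_le' _)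

theorem eq_bot_iff' {A : Set Λ} : cf A = cf ∅ ↔ A.Finite := by
  rw [eq_fin, Set.empty_sdiff, Set.sdiff_empty]
  exact ⟨fun h => h.1, fun h => ⟨h, Set.finite_empty⟩⟩

theorem inf_of_inf (φ : Quo ℵ₀ le_rfl Λ ≃o Quo ℵ₀ le_rfl Λ') {A : Set Λ} {B : Set Λ'} (h : φ (cf A) = cf B) :
    A.Infinite ↔ B.Infinite := by
  have h1 : A.Finite ↔ B.Finite := by
    rw [← eq_bot_iff', ← eq_bot_iff', ← h, ← map_bot' φ]
    exact (φ.injective.eq_iff).symm
  exact not_congr h1

/-- Countable sets have countable saturations, if the fibres are countable. -/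
theorem exists_sat (e : Λ → Λ) (hfin : ∀ y : Λ, (e ⁻¹' {y}).Countable) (K : Set Λ) (hK : K.Countable) :
    ∃ S : Set Λ, K ⊆ S ∧ S.Countable ∧ e ⁻¹' S = S := by
  have hcn : ∀ (m : ℕ) (y : Λ), ((e^[m]) ⁻¹' {y}).Countable := by
    intro m
    induction m with
    | zero => intro y; simp
    | succ m ih =>
      intro y
      have h1 : (e^[m+1]) ⁻¹' {y} = ⋃ w ∈ e ⁻¹' {y}, (e^[m]) ⁻¹' {w} := by
        ext z
        simp only [mem_preimage, mem_singleton_iff, mem_iUnion, exists_prop]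
        rw [Function.iterate_succ_apply']
        constructor
        · intro h
          exact ⟨e^[m] z, h, rfl⟩
        · rintro ⟨w, hw, rfl⟩
          exact hw
      rw [h1]
      exact (hfin y).biUnion fun w _ => ih w
  let S : Set Λ := ⋃ k ∈ K, ⋃ m : ℕ, ⋃ n : ℕ, (e^[m]) ⁻¹' {e^[n] k}
  have hS : S.Countable :=
    hK.biUnion fun k _ => Set.countable_iUnion fun m => Set.countable_iUnion fun n => hcn m _
  have hmem : ∀ z, z ∈ S ↔ ∃ k ∈ K, ∃ m n, e^[m] z = e^[n] k := by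
    intro z
    simp only [S, mem_iUnion, mem_preimage, mem_singleton_iff, exists_prop]
  refine ⟨S, fun k hk => (hmem k).2 ⟨k, hk, 0, 0, rfl⟩, hS, ?_⟩
  ext z
  rw [mem_preimage, hmem, hmem]
  constructor
  · rintro ⟨k, hk, m, n, h⟩
    refine ⟨k, hk, m + 1, n, ?_⟩
    rw [Function.iterate_succ_apply]
    exact h
  · rintro ⟨k, hk, m, n, h⟩
    refine ⟨k, hk, m, n + 1, ?_⟩
    have h1 : e^[m] (e z) = e (e^[m] z) :=
      (Function.iterate_succ_apply e m z).symm.trans (Function.iterate_succ_apply' e m z)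
    rw [h1, h]
    exact (Function.iterate_succ_apply' e n k).symm

/-- An automorphism which is trivial on a cocountable set, with a cocountable image, has countable
infinite sets in its fixed classes. -/
theorem fixed_of_trivialOn (hu : ¬ (Set.univ : Set Λ).Countable)
    (φ : Quo ℵ₀ le_rfl Λ ≃o Quo ℵ₀ le_rfl Λ) {A B : Set Λ} (hA : Aᶜ.Countable) (hB : Bᶜ.Countable)
    (hAB : φ (cf A) = cf B) (h : IsTrivialOn φ A) :
    ∃ S : Set Λ, S.Countable ∧ S.Infinite ∧ φ (cf S) = cf S := by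
  classical
  obtain ⟨B', hB', e, he⟩ := h
  have hBB : cf B = cf B' := hAB.symm.trans hB'
  have hB'c : B'ᶜ.Countable := by
    refine (hB.union (eq_fin.1 hBB).1.countable).mono ?_
    intro x hx
    by_cases hxB : x ∈ B
    · exact Or.inr ⟨hxB, hx⟩
    · exact Or.inl hxB
  let e0 : Λ → Λ := fun x => if h : x ∈ B' then e ⟨x, h⟩ else x
  have he0 : ∀ (x : Λ) (h : x ∈ B'), e0 x = e ⟨x, h⟩ := fun x h => dif_pos h
  have he1 : ∀ (x : Λ) (h : x ∉ B'), e0 x = x := fun x h => dif_neg h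
  have hfin : ∀ y : Λ, (e0 ⁻¹' {y}).Countable := by
    intro y
    have h1 : (Subtype.val '' (e ⁻¹' {z : A | (z : Λ) = y}) : Set Λ).Finite := by
      have h2 : φ (cf (Subtype.val '' {z : A | (z : Λ) = y})) =
        cf (Subtype.val '' (e ⁻¹' {z : A | (z : Λ) = y})) := he _
      have h3 : cf (Subtype.val '' {z : A | (z : Λ) = y} : Set Λ) = cf ∅ := by
        rw [eq_bot_iff']
        refine (Set.finite_singleton y).subset ?_
        rintro _ ⟨z, hz, rfl⟩
        exact hz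
      rw [← eq_bot_iff', ← h2, h3, map_bot' φ]
    refine (h1.union (Set.finite_singleton y)).countable.mono ?_
    intro x hx
    by_cases hxB : x ∈ B'
    · left
      refine ⟨⟨x, hxB⟩, ?_, rfl⟩
      show (e ⟨x, hxB⟩ : Λ) = y
      rw [← he0 x hxB]
      exact hx
    · right
      have h4 : e0 x = y := hx
      rw [he1 x hxB] at h4
      exact h4
  obtain ⟨T, hKT, hTc, hTe⟩ := exists_sat e0 hfin (Aᶜ ∪ B'ᶜ) (hA.union hB'c)
  have hTi : (Tᶜ : Set Λ).Infinite := by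
    intro hf
    apply hu
    rw [← Set.union_compl_self T]
    exact hTc.union hf.countable
  have : Infinite (Tᶜ : Set Λ) := hTi.to_subtype
  let f : ℕ ↪ (Tᶜ : Set Λ) := Infinite.natEmbedding _
  obtain ⟨T', hRT, hTc', hTe'⟩ := exists_sat e0 hfin (Set.range fun n => (f n : Λ))
    (Set.countable_range _)
  let S : Set Λ := T' \ T
  have hSe : e0 ⁻¹' S = S := by
    show e0 ⁻¹' (T' \ T) = T' \ T
    rw [Set.preimage_sdiff, hTe, hTe']
  have hSi : S.Infinite := by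
    have h1 : Function.Injective fun n => (f n : Λ) := fun x y h => f.injective (Subtype.ext h)
    refine (Set.infinite_range_of_injective h1).mono ?_
    rintro _ ⟨n, rfl⟩
    exact ⟨hRT ⟨n, rfl⟩, (f n).2⟩
  have hSA : S ⊆ A := by
    intro x hx
    by_contra h1
    exact hx.2 (hKT (Or.inl h1))
  have hSB : S ⊆ B' := by
    intro x hx
    by_contra h1
    exact hx.2 (hKT (Or.inr h1))
  refine ⟨S, hTc'.mono sdiff_subset, hSi, ?_⟩
  have h1 : φ (cf (Subtype.val '' {z : A | (z : Λ) ∈ S})) =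
    cf (Subtype.val '' (e ⁻¹' {z : A | (z : Λ) ∈ S})) := he _
  have h2 : (Subtype.val '' {z : A | (z : Λ) ∈ S} : Set Λ) = S := by
    ext x
    constructor
    · rintro ⟨z, hz, rfl⟩
      exact hz
    · intro hx
      exact ⟨⟨x, hSA hx⟩, hx, rfl⟩
  have h3 : (Subtype.val '' (e ⁻¹' {z : A | (z : Λ) ∈ S}) : Set Λ) = S := by
    ext x
    constructor
    · rintro ⟨z, hz, rfl⟩
      have h4 : (e z : Λ) ∈ S := hz
      have h5 : e0 z.1 = e z := he0 z.1 z.2
      rw [← h5] at h4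
      have h6 : z.1 ∈ e0 ⁻¹' S := h4
      rwa [hSe] at h6
    · intro hx
      refine ⟨⟨x, hSB hx⟩, ?_, rfl⟩
      show (e ⟨x, hSB hx⟩ : Λ) ∈ S
      rw [← he0 x (hSB hx)]
      have h6 : x ∈ e0 ⁻¹' S := by
        rw [hSe]
        exact hx
      exact h6
  rw [h2, h3] at h1
  exact h1

/-- An order isomorphism from a map on representatives. -/
theorem exists_iso (F : Set Λ → Set Λ') (hle : ∀ A B, cf A ≤ cf B ↔ cf (F A) ≤ cf (F B))
    (hsur : ∀ Z, ∃ A, cf (F A) = cf Z) :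
    ∃ φ : Quo ℵ₀ le_rfl Λ ≃o Quo ℵ₀ le_rfl Λ', ∀ A, φ (cf A) = cf (F A) := by
  choose rep hrep using fun q : Quo ℵ₀ le_rfl Λ => exists_cf q
  let f : Quo ℵ₀ le_rfl Λ ↪o Quo ℵ₀ le_rfl Λ' :=
    OrderEmbedding.ofMapLEIff (fun q => cf (F (rep q))) (fun a b => by
      rw [← hle, hrep, hrep])
  have hf : ∀ A, f (cf A) = cf (F A) := by
    intro A
    have h1 : cf (rep (cf A)) = cf A := hrep _
    exact le_antisymm ((hle _ _).1 h1.le) ((hle _ _).1 h1.ge)
  refine ⟨RelIso.ofSurjective f ?_, fun A => hf A⟩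
  intro q
  obtain ⟨Z, rfl⟩ := exists_cf q
  obtain ⟨A, hA⟩ := hsur Z
  exact ⟨cf A, by rw [← hA]; exact hf A⟩

/-- Transfer to another set. -/
theorem exists_transfer {N : Type} (φ : Quo ℵ₀ le_rfl Λ ≃o Quo ℵ₀ le_rfl Λ) {A B : Set Λ}
    (hAB : φ (cf A) = cf B) (a : N ≃ A) (b : N ≃ B) :
    ∃ ψ : Quo ℵ₀ le_rfl N ≃o Quo ℵ₀ le_rfl N, (IsTrivial ψ → IsTrivialOn φ A) ∧
      ∀ X : Set N, IsTrivialOn φ ((fun n => (a n : Λ)) '' X) → IsTrivialOn ψ X := by
  choose F hF using fun X : Set Λ => exists_cf (φ (cf X))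
  choose G hG using fun X : Set Λ => exists_cf (φ.symm (cf X))
  let ia : Set N → Set Λ := fun X => (fun n => (a n : Λ)) '' X
  let pb : Set Λ → Set N := fun Z => {n | (b n : Λ) ∈ Z}
  have hinja : Function.Injective (fun n => (a n : Λ)) := fun x y h => a.injective (Subtype.ext h)
  have hinjb : Function.Injective (fun n => (b n : Λ)) := fun x y h => b.injective (Subtype.ext h)
  have hia : ∀ X Y : Set N, cf X ≤ cf Y ↔ cf (ia X) ≤ cf (ia Y) := by
    intro X Y
    rw [le_fin, le_fin, ← Set.image_sdiff hinja]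
    exact (Set.finite_image_iff hinja.injOn).symm
  have hiaA : ∀ X, ia X ⊆ A := by
    rintro X _ ⟨n, -, rfl⟩
    exact (a n).2
  have hpb : ∀ Z W : Set Λ, (Z \ B).Finite → (cf Z ≤ cf W ↔ cf (pb Z) ≤ cf (pb W)) := by
    intro Z W hZ
    rw [le_fin, le_fin]
    have h1 : (fun n => (b n : Λ)) '' (pb Z \ pb W) = (Z \ W) ∩ B := by
      ext x
      constructor
      · rintro ⟨n, ⟨h1, h2⟩, rfl⟩
        exact ⟨⟨h1, h2⟩, (b n).2⟩
      · rintro ⟨⟨h1, h2⟩, h3⟩
        refine ⟨b.symm ⟨x, h3⟩, ⟨?_, ?_⟩, by simp⟩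
        · show ((b (b.symm ⟨x, h3⟩) : B) : Λ) ∈ Z
          simpa using h1
        · show ¬ ((b (b.symm ⟨x, h3⟩) : B) : Λ) ∈ W
          simpa using h2
    have h2 : (pb Z \ pb W).Finite ↔ ((Z \ W) ∩ B).Finite := by
      rw [← h1]
      exact (Set.finite_image_iff hinjb.injOn).symm
    rw [h2]
    constructor
    · intro h
      exact h.subset inter_subset_left
    · intro h
      refine (h.union hZ).subset ?_
      rintro x ⟨hx1, hx2⟩
      by_cases hx : x ∈ B
      · exact Or.inl ⟨⟨hx1, hx2⟩, hx⟩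
      · exact Or.inr ⟨hx1, hx⟩
  have hFA : ∀ X : Set N, (F (ia X) \ B).Finite := by
    intro X
    rw [← le_fin, hF, ← hAB, φ.le_iff_le, le_fin, Set.sdiff_eq_empty.2 (hiaA X)]
    exact Set.finite_empty
  obtain ⟨ψ, hψ⟩ := exists_iso (fun X : Set N => pb (F (ia X))) (fun X Y => by
    rw [hia, ← hpb _ _ (hFA X), hF, hF, φ.le_iff_le]) (fun Z => by
    let Y : Set Λ := (fun n => (b n : Λ)) '' Z
    let X : Set N := {n | (a n : Λ) ∈ G Y}
    have hYB : Y ⊆ B := by
      rintro _ ⟨n, -, rfl⟩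
      exact (b n).2
    have hX : ia X = G Y ∩ A := by
      ext x
      constructor
      · rintro ⟨n, hn, rfl⟩
        exact ⟨hn, (a n).2⟩
      · rintro ⟨h1, h2⟩
        refine ⟨a.symm ⟨x, h2⟩, ?_, by simp⟩
        show ((a (a.symm ⟨x, h2⟩) : A) : Λ) ∈ G Y
        simpa using h1
    have hGA : (G Y \ A).Finite := by
      rw [← le_fin, hG, ← φ.le_iff_le, φ.apply_symm_apply, hAB, le_fin, Set.sdiff_eq_empty.2 hYB]
      exact Set.finite_empty
    have hXG : cf (ia X) = cf (G Y) := by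
      rw [hX, eq_fin]
      constructor
      · rw [Set.sdiff_eq_empty.2 inter_subset_left]
        exact Set.finite_empty
      · exact hGA.subset fun x hx => ⟨hx.1, fun h => hx.2 ⟨hx.1, h⟩⟩
    have hFY : cf (F (ia X)) = cf Y := by
      rw [hF, hXG, hG, φ.apply_symm_apply]
    have hpY : pb Y = Z := by
      ext n
      constructor
      · rintro ⟨m, hm, hmn⟩
        rwa [← hinjb hmn]
      · intro hn
        exact ⟨n, hn, rfl⟩
    refine ⟨X, ?_⟩
    have h1 : (F (ia X) \ B).Finite := hFA X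
    have h2 : (Y \ B).Finite := by
      rw [Set.sdiff_eq_empty.2 hYB]
      exact Set.finite_empty
    show cf (pb (F (ia X))) = cf Z
    rw [← hpY]
    exact le_antisymm ((hpb _ _ h1).1 hFY.le) ((hpb _ _ h2).1 hFY.ge))
  refine ⟨ψ, ?_, ?_⟩
  swap
  · intro X hX
    obtain ⟨B', hB', e, he⟩ := hX
    have hBB : (B' \ B).Finite := by
      rw [← le_fin]
      show cf B' ≤ cf B
      have h1 : φ (cf (ia X)) = cf B' := hB'
      rw [← h1, ← hAB, φ.le_iff_le, le_fin, Set.sdiff_eq_empty.2 (hiaA X)]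
      exact Set.finite_empty
    have hkey : ∀ (Y : Set N) (Z : Set Λ), (Z \ B).Finite → φ (cf (ia Y)) = cf Z →
        ψ (cf Y) = cf (pb Z) := by
      intro Y Z hZ h
      rw [hψ]
      have h1 : cf (F (ia Y)) = cf Z := by rw [hF, h]
      exact le_antisymm ((hpb _ _ (hFA Y)).1 h1.le) ((hpb _ _ hZ).1 h1.ge)
    refine ⟨pb B', hkey X B' hBB hB', fun n => ⟨a.symm ⟨e ⟨b n, n.2⟩, hiaA X (e ⟨b n, n.2⟩).2⟩, ?_⟩,
      fun Y => ?_⟩
    · obtain ⟨m, hm, hmn⟩ := (e ⟨b n, n.2⟩).2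
      have h1 : (⟨e ⟨b n, n.2⟩, hiaA X (e ⟨b n, n.2⟩).2⟩ : A) = a m := Subtype.ext hmn.symm
      rw [h1, a.symm_apply_apply]
      exact hm
    · let Y' : Set (ia X) := {z | a.symm ⟨z, hiaA X z.2⟩ ∈ Subtype.val '' Y}
      have h1 : φ (cf (Subtype.val '' Y')) = cf (Subtype.val '' (e ⁻¹' Y')) := he Y'
      have h2 : (Subtype.val '' Y' : Set Λ) = ia (Subtype.val '' Y) := by
        ext x
        constructor
        · rintro ⟨z, hz, rfl⟩
          refine ⟨a.symm ⟨z, hiaA X z.2⟩, hz, ?_⟩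
          show ((a (a.symm ⟨z, hiaA X z.2⟩) : A) : Λ) = z
          rw [a.apply_symm_apply]
        · rintro ⟨n, ⟨y, hy, rfl⟩, rfl⟩
          refine ⟨⟨a y, ⟨y, y.2, rfl⟩⟩, ?_, rfl⟩
          show a.symm ⟨(a y : Λ), _⟩ ∈ Subtype.val '' Y
          have h3 : a.symm ⟨(a y : Λ), (a y).2⟩ = y := a.symm_apply_apply _
          exact ⟨y, hy, h3.symm⟩
      rw [h2] at h1
      have h4 : ((Subtype.val '' (e ⁻¹' Y') : Set Λ) \ B).Finite := by
        refine hBB.subset ?_
        rintro _ ⟨⟨z, -, rfl⟩, hz2⟩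
        exact ⟨z.2, hz2⟩
      have h5 := hkey _ _ h4 h1
      have h6 : pb (Subtype.val '' (e ⁻¹' Y')) = Subtype.val ''
          ((fun n : pb B' => (⟨a.symm ⟨e ⟨b n, n.2⟩, hiaA X (e ⟨b n, n.2⟩).2⟩, by
            obtain ⟨m, hm, hmn⟩ := (e ⟨b n, n.2⟩).2
            have h1 : (⟨e ⟨b n, n.2⟩, hiaA X (e ⟨b n, n.2⟩).2⟩ : A) = a m := Subtype.ext hmn.symm
            rw [h1, a.symm_apply_apply]
            exact hm⟩ : X)) ⁻¹' Y) := by
        ext n
        constructor
        · rintro ⟨⟨z, hz0⟩, hz, hzn⟩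
          have hz' : z = b n := hzn
          subst hz'
          refine ⟨⟨n, hz0⟩, ?_, rfl⟩
          obtain ⟨y, hy, hyz⟩ := hz
          rw [Set.mem_preimage]
          convert hy using 1
          exact Subtype.ext hyz.symm
        · rintro ⟨n', hn', rfl⟩
          refine ⟨⟨b n', n'.2⟩, ?_, rfl⟩
          exact ⟨_, hn', rfl⟩
      rw [h6] at h5
      exact h5
  rintro ⟨e, he⟩
  refine ⟨B, hAB, fun y => a (e (b.symm y)), fun X => ?_⟩
  -- `X` as a set of integers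
  let X' : Set N := {n | a n ∈ X}
  have hX' : ia X' = Subtype.val '' X := by
    ext x
    constructor
    · rintro ⟨n, hn, rfl⟩
      exact ⟨a n, hn, rfl⟩
    · rintro ⟨y, hy, rfl⟩
      refine ⟨a.symm y, ?_, by simp⟩
      show a (a.symm y) ∈ X
      simpa using hy
  have h1 : cf (pb (F (ia X'))) = cf (e ⁻¹' X') := by
    have h5 : ψ (cf X') = cf (e ⁻¹' X') := he X'
    rw [← h5, hψ]
  have h2 : pb (Subtype.val '' ((fun y : B => a (e (b.symm y))) ⁻¹' X)) = e ⁻¹' X' := by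
    ext n
    constructor
    · rintro ⟨y, hy, hyn⟩
      have h3 : y = b n := Subtype.ext hyn
      subst h3
      show a (e n) ∈ X
      simpa using hy
    · intro hn
      refine ⟨b n, ?_, rfl⟩
      show a (e (b.symm (b n))) ∈ X
      rw [b.symm_apply_apply]
      exact hn
  have h3 : (Subtype.val '' ((fun y : B => a (e (b.symm y))) ⁻¹' X) \ B : Set Λ).Finite := by
    rw [Set.sdiff_eq_empty.2]
    · exact Set.finite_empty
    · rintro _ ⟨y, -, rfl⟩
      exact y.2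
  show φ (cf (Subtype.val '' X)) = _
  rw [← hX', ← hF]
  have h4 : (F (ia X') \ B).Finite := hFA X'
  refine le_antisymm ((hpb _ _ h4).2 ?_) ((hpb _ _ h3).2 ?_)
  · rw [h2]
    exact h1.le
  · rw [h2]
    exact h1.ge

end Pool.Agent.W265.FP
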