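import Pool.Agent.W265.FP.Basic
import Pool.Agent.W869.AV.Iso

/-!
# Fixed points of automorphisms of `P(ω₁)/Fin`: the theorem
-/

set_option autoImplicit false

namespace Pool.Agent.W265.FP

open Set Pool.Agent.W869.AV
open Cardinal hiding univ

variable {Λ : Type}

/-- The automorphism preserves the cardinalities of the infinite sets. -/
def CardPres (φ : Quo ℵ₀ le_rfl Λ ≃o Quo ℵ₀ le_rfl Λ) : Prop :=
  ∀ A B : Set Λ, A.Infinite → B.Infinite → φ (cls le_rfl A) = cls le_rfl B → #A = #B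

/-- The automorphism fixes the class of some infinite set with an infinite complement. -/
def HasNontrivialFixedPoint (φ : Quo ℵ₀ le_rfl Λ ≃o Quo ℵ₀ le_rfl Λ) : Prop :=
  ∃ A : Set Λ, A.Infinite ∧ Aᶜ.Infinite ∧ φ (cls le_rfl A) = cls le_rfl A

theorem pow_succ_apply' (φ : Quo ℵ₀ le_rfl Λ ≃o Quo ℵ₀ le_rfl Λ) (n : ℕ) (q : Quo ℵ₀ le_rfl Λ) :
    (φ ^ (n + 1)) q = φ ((φ ^ n) q) := by
  rw [pow_succ']
  rfl

theorem cardPres_pow {φ : Quo ℵ₀ le_rfl Λ ≃o Quo ℵ₀ le_rfl Λ} (h : CardPres φ) (n : ℕ) :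
    CardPres (φ ^ n) := by
  induction n with
  | zero =>
    intro A B hA hB hAB
    have h1 : cf A = cf B := hAB
    obtain ⟨h2, h3⟩ := eq_fin.1 h1
    have h4 : ∀ X Y : Set Λ, Y.Infinite → (X \ Y).Finite → #X ≤ #Y := by
      intro X Y hY hXY
      have : Infinite Y := hY.to_subtype
      calc #X ≤ #(X \ Y ∪ Y : Set Λ) := Cardinal.mk_le_mk_of_subset (by
            intro x hx
            by_cases hxY : x ∈ Y
            · exact Or.inr hxY
            · exact Or.inl ⟨hx, hxY⟩)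
        _ ≤ #(X \ Y : Set Λ) + #Y := Cardinal.mk_union_le _ _
        _ = #Y := Cardinal.add_eq_right (Cardinal.aleph0_le_mk _)
            ((Cardinal.lt_aleph0_iff_set_finite.2 hXY).le.trans (Cardinal.aleph0_le_mk _))
    exact le_antisymm (h4 A B hB h2) (h4 B A hA h3)
  | succ n ih =>
    intro A B hA hB hAB
    obtain ⟨C, hC⟩ := exists_cf ((φ ^ n) (cf A))
    have h1 : φ (cf C) = cf B := by
      rw [hC, ← pow_succ_apply']
      exact hAB
    have hCi : C.Infinite := (inf_of_inf φ h1).2 hB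
    exact (ih A C hA hCi hC.symm).trans (h C B hCi hB h1)

/-- A fixed countable infinite set of a power gives a nontrivial fixed point. -/
theorem fixed_of_pow (hu : ¬ (Set.univ : Set Λ).Countable) {φ : Quo ℵ₀ le_rfl Λ ≃o Quo ℵ₀ le_rfl Λ}
    (h : CardPres φ) {n : ℕ} (hn : 1 ≤ n) {S : Set Λ} (hS : S.Countable) (hSi : S.Infinite)
    (hfix : (φ ^ n) (cf S) = cf S) : HasNontrivialFixedPoint φ := by
  choose B hB using fun i : ℕ => exists_cf ((φ ^ i) (cf S))
  have hBi : ∀ i, (B i).Infinite := fun i => (inf_of_inf (φ ^ i) (hB i).symm).1 hSi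
  have hBc : ∀ i, (B i).Countable := by
    intro i
    have h1 := cardPres_pow h i S (B i) hSi (hBi i) (hB i).symm
    rw [← Cardinal.le_aleph0_iff_set_countable, ← h1, Cardinal.le_aleph0_iff_set_countable]
    exact hS
  let U : Set Λ := ⋃ i ∈ Finset.range n, B i
  have hUc : U.Countable := (Finset.range n).countable_toSet.biUnion fun i _ => hBc i
  have hUi : U.Infinite := (hBi 0).mono (by
    intro x hx
    simp only [U, mem_iUnion, Finset.mem_range]
    exact ⟨0, hn, hx⟩)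
  have hlub : ∀ V : Set Λ, cf U ≤ cf V ↔ ∀ i < n, cf (B i) ≤ cf V := by
    intro V
    rw [le_fin]
    constructor
    · intro hf i hi
      rw [le_fin]
      refine hf.subset ?_
      rintro x ⟨hx, hxV⟩
      refine ⟨?_, hxV⟩
      simp only [U, mem_iUnion, Finset.mem_range]
      exact ⟨i, hi, hx⟩
    · intro hf
      have h1 : (⋃ i ∈ Finset.range n, (B i \ V)).Finite :=
        (Finset.range n).finite_toSet.biUnion fun i hi =>
          le_fin.1 (hf i (Finset.mem_range.1 hi))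
      refine h1.subset ?_
      rintro x ⟨hx, hxV⟩
      simp only [U, mem_iUnion, Finset.mem_range] at hx
      obtain ⟨i, hi, hx⟩ := hx
      simp only [mem_iUnion, Finset.mem_range]
      exact ⟨i, hi, hx, hxV⟩
  have hper : ∀ q : Quo ℵ₀ le_rfl Λ, (∀ i < n, (φ ^ i) (cf S) ≤ q) ↔
      ∀ i < n, φ ((φ ^ i) (cf S)) ≤ q := by
    intro q
    constructor
    · intro hq i hi
      rw [← pow_succ_apply']
      rcases Nat.lt_or_ge (i + 1) n with h1 | h1
      · exact hq _ h1
      · have h2 : i + 1 = n := by omega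
        rw [h2, hfix]
        exact hq 0 (by omega)
    · intro hq i hi
      cases i with
      | zero =>
        have h1 := hq (n - 1) (by omega)
        rw [← pow_succ_apply', Nat.sub_add_cancel hn, hfix] at h1
        exact h1
      | succ i =>
        rw [pow_succ_apply']
        exact hq i (by omega)
  have hUf : φ (cf U) = cf U := by
    have key : ∀ V : Set Λ, φ (cf U) ≤ cf V ↔ cf U ≤ cf V := by
      intro V
      obtain ⟨W, hW⟩ := exists_cf (φ.symm (cf V))
      rw [← φ.le_symm_apply, ← hW, hlub W, hlub V]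
      constructor
      · intro h1 i hi
        rw [hB]
        refine (hper (cf V)).2 (fun j hj => ?_) i hi
        have h2 := h1 j hj
        rw [hB, hW, φ.le_symm_apply] at h2
        exact h2
      · intro h1 i hi
        rw [hB, hW, φ.le_symm_apply]
        refine (hper (cf V)).1 (fun j hj => ?_) i hi
        have h2 := h1 j hj
        rw [hB] at h2
        exact h2
    obtain ⟨W, hW⟩ := exists_cf (φ (cf U))
    refine le_antisymm ((key U).2 le_rfl) ?_
    rw [← hW, ← key W, hW]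
  refine ⟨U, hUi, ?_, hUf⟩
  intro hf
  apply hu
  rw [← Set.union_compl_self U]
  exact hUc.union hf.countable

/-- `ω₁`. -/
abbrev Om : Type := (Order.succ ℵ₀).ord.ToType

theorem mk_Om : #Om = Order.succ ℵ₀ := Cardinal.mk_ord_toType _

theorem not_countable_Om : ¬ (Set.univ : Set Om).Countable := by
  rw [← Cardinal.le_aleph0_iff_set_countable, Cardinal.mk_univ, mk_Om, not_le]
  exact Order.lt_succ _

theorem card_of_cocountable {A : Set Om} (hA : Aᶜ.Countable) : #A = Order.succ ℵ₀ := by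
  refine le_antisymm ((Cardinal.mk_set_le A).trans mk_Om.le) ?_
  rw [Order.succ_le_iff, ← not_le, Cardinal.le_aleph0_iff_set_countable]
  intro h
  apply not_countable_Om
  rw [← Set.union_compl_self A]
  exact h.union hA

theorem main1 (φ : Quo ℵ₀ le_rfl Om ≃o Quo ℵ₀ le_rfl Om)
    (h : ∀ A : Set Om, #A = ℵ₀ → IsTrivialOn φ A) : HasNontrivialFixedPoint φ := by
  have h1 : IsTrivial φ := trivial_of_card (by
    rw [mk_Om]
    exact Order.succ_le_of_lt (Cardinal.cantor ℵ₀)) φ h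
  obtain ⟨e, he⟩ := h1
  have h2 : IsTrivialOn φ (Set.univ : Set Om) := by
    refine ⟨Set.univ, he _, fun x => ⟨e x, trivial⟩, fun X => ?_⟩
    rw [he]
    congr 1
    ext x
    constructor
    · rintro ⟨y, hy, hyx⟩
      refine ⟨⟨x, trivial⟩, ?_, rfl⟩
      show (⟨e x, trivial⟩ : (Set.univ : Set Om)) ∈ X
      have h3 : (⟨e x, trivial⟩ : (Set.univ : Set Om)) = y := Subtype.ext hyx.symm
      rw [h3]
      exact hy
    · rintro ⟨y, hy, rfl⟩
      exact ⟨_, hy, rfl⟩
  have h3 : φ (cf (Set.univ : Set Om)) = cf Set.univ := he _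
  obtain ⟨S, hS, hSi, hSf⟩ := fixed_of_trivialOn not_countable_Om φ (A := Set.univ) (B := Set.univ)
    (by simp) (by simp) h3 h2
  refine ⟨S, hSi, ?_, hSf⟩
  intro hf
  apply not_countable_Om
  rw [← Set.union_compl_self S]
  exact hS.union hf.countable

theorem main2 {φ : Quo ℵ₀ le_rfl Om ≃o Quo ℵ₀ le_rfl Om} (hc : CardPres φ) {n : ℕ} (hn : 1 ≤ n)
    (C : Set Om) (hC : C.Countable)
    (h : ∀ A : Set Om, #A = ℵ₀ → Disjoint A C → IsTrivialOn (φ ^ n) A) :
    HasNontrivialFixedPoint φ := by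
  obtain ⟨B, hB⟩ := exists_cf ((φ ^ n) (cf Cᶜ))
  obtain ⟨D, hD⟩ := exists_cf ((φ ^ n) (cf C))
  have hcn := cardPres_pow hc n
  have hA : (Cᶜᶜ : Set Om).Countable := by rwa [compl_compl]
  have hAi : (Cᶜ : Set Om).Infinite := by
    intro hf
    apply not_countable_Om
    rw [← Set.union_compl_self C]
    exact hC.union hf.countable
  have hBi : B.Infinite := (inf_of_inf (φ ^ n) hB.symm).1 hAi
  have hAB := hcn _ B hAi hBi hB.symm
  have hDc : D.Countable := by
    by_cases hCf : C.Finite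
    · have h1 : cf D = cf ∅ := by
        rw [hD, eq_bot_iff'.2 hCf, map_bot']
      exact (eq_bot_iff'.1 h1).countable
    · have hDi : D.Infinite := (inf_of_inf (φ ^ n) hD.symm).1 hCf
      have h1 := hcn C D hCf hDi hD.symm
      rw [← Cardinal.le_aleph0_iff_set_countable, ← h1, Cardinal.le_aleph0_iff_set_countable]
      exact hC
  have hBc : Bᶜ.Countable := by
    -- the complement of `B` is almost contained in `D`
    have h1 : cf (Bᶜ) ≤ cf D := by
      obtain ⟨W, hW⟩ := exists_cf ((φ ^ n).symm (cf (Bᶜ \ D)))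
      have h2 : cf W ≤ cf C := by
        rw [le_fin]
        have h3 : cf (W \ C) ≤ cf ∅ := by
          rw [← (φ ^ n).le_iff_le, map_bot']
          obtain ⟨V, hV⟩ := exists_cf ((φ ^ n) (cf (W \ C)))
          rw [← hV]
          have h4 : cf V ≤ cf B := by
            rw [hV, hB, (φ ^ n).le_iff_le, le_fin]
            rw [Set.sdiff_eq_empty.2 (fun x hx => hx.2)]
            exact Set.finite_empty
          have h5 : cf V ≤ cf (Bᶜ \ D) := by
            rw [hV, ← (φ ^ n).le_symm_apply, ← hW, le_fin, Set.sdiff_eq_empty.2 sdiff_subset]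
            exact Set.finite_empty
          rw [le_fin] at h4 h5 ⊢
          refine (h4.union h5).subset ?_
          rintro x ⟨hx, -⟩
          by_cases hxB : x ∈ B
          · exact Or.inr ⟨hx, fun h => h.1 hxB⟩
          · exact Or.inl ⟨hx, hxB⟩
        rw [le_fin, Set.sdiff_empty] at h3
        exact h3
      have h3 : cf (Bᶜ \ D) ≤ cf D := by
        rw [hD, ← (φ ^ n).symm.le_iff_le, ← hW, (φ ^ n).symm_apply_apply]
        exact h2
      rw [le_fin] at h3 ⊢
      refine h3.subset ?_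
      rintro x ⟨hx, hxD⟩
      exact ⟨⟨hx, hxD⟩, hxD⟩
    rw [le_fin] at h1
    refine (hDc.union h1.countable).mono ?_
    intro x hx
    by_cases hxD : x ∈ D
    · exact Or.inl hxD
    · exact Or.inr ⟨hx, hxD⟩
  obtain ⟨b⟩ : Nonempty ((Cᶜ : Set Om) ≃ B) := Cardinal.eq.1 hAB
  obtain ⟨ψ, hψ1, hψ2⟩ := exists_transfer (φ ^ n) hB.symm (Equiv.refl _) b
  have hψ : IsTrivial ψ := by
    refine trivial_of_card ?_ ψ (fun X hX => hψ2 X (h _ ?_ ?_))
    · rw [card_of_cocountable hA]
      exact Order.succ_le_of_lt (Cardinal.cantor ℵ₀)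
    · exact (Cardinal.mk_image_eq (fun x y h => Subtype.ext h)).trans hX
    · rw [Set.disjoint_left]
      rintro _ ⟨y, -, rfl⟩
      exact y.2
  obtain ⟨S, hS, hSi, hSf⟩ := fixed_of_trivialOn not_countable_Om (φ ^ n) hA hBc hB.symm (hψ1 hψ)
  exact fixed_of_pow not_countable_Om hc hn hS hSi hSf

/-- If all automorphisms of `P(ω)/Fin` are trivial, then an automorphism is trivial on each
countable infinite set with a countable image. -/
theorem trivialOn_of_omega (hω : ∀ ψ : Quo ℵ₀ le_rfl ℕ ≃o Quo ℵ₀ le_rfl ℕ, IsTrivial ψ)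
    (φ : Quo ℵ₀ le_rfl Λ ≃o Quo ℵ₀ le_rfl Λ) {A B : Set Λ} (hA : #A = ℵ₀) (hB : B.Countable)
    (hAB : φ (cf A) = cf B) : IsTrivialOn φ A := by
  have hAi : A.Infinite := by
    intro hf
    have h1 := Cardinal.lt_aleph0_iff_set_finite.2 hf
    rw [hA] at h1
    exact lt_irrefl _ h1
  have hBi : B.Infinite := (inf_of_inf φ hAB).1 hAi
  have : Infinite B := hBi.to_subtype
  have hB' : #B = ℵ₀ :=
    le_antisymm (Cardinal.le_aleph0_iff_set_countable.2 hB) (Cardinal.aleph0_le_mk _)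
  obtain ⟨a⟩ : Nonempty (ℕ ≃ A) := Cardinal.eq.1 (by rw [hA, Cardinal.mk_nat])
  obtain ⟨b⟩ : Nonempty (ℕ ≃ B) := Cardinal.eq.1 (by rw [hB', Cardinal.mk_nat])
  obtain ⟨ψ, hψ1, -⟩ := exists_transfer φ hAB a b
  exact hψ1 (hω ψ)

/-- If all automorphisms of `P(ω)/Fin` are trivial, then the images of the countable sets are
countable. -/
theorem countable_of_omega (hω : ∀ ψ : Quo ℵ₀ le_rfl ℕ ≃o Quo ℵ₀ le_rfl ℕ, IsTrivial ψ)
    (φ : Quo ℵ₀ le_rfl Λ ≃o Quo ℵ₀ le_rfl Λ) {A B : Set Λ} (hA : A.Countable)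
    (hAB : φ (cf A) = cf B) : B.Countable := by
  have : Fact (ℵ₀ ≤ ℵ₀) := ⟨le_rfl⟩
  obtain ⟨ρ, hρ⟩ := exists_aut φ.symm
  have hG : cf (ρ.G A) = cf B := by
    rw [← hAB]
    apply φ.symm.injective
    rw [φ.symm_apply_apply, hρ, cls_eq_iff]
    exact ⟨ρ.FG A, ρ.FG' A⟩
  have h1 : #(ρ.G A) ≤ ℵ₀ := by
    refine card_G_local le_rfl (fun Y hY hYc => ?_) (Cardinal.le_aleph0_iff_set_countable.2 hA)
    obtain ⟨E, hE⟩ := exists_cf (φ.symm (cf Y))
    refine tr_of_trivialOn hρ (trivialOn_of_omega hω φ.symm hYc (B := E) ?_ hE.symm)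
    have h2 : cf E ≤ cf A := by
      rw [hE, φ.symm_apply_le, hAB, ← hG, le_fin, Set.sdiff_eq_empty.2 hY]
      exact Set.finite_empty
    rw [le_fin] at h2
    refine (hA.union h2.countable).mono ?_
    intro x hx
    by_cases hxA : x ∈ A
    · exact Or.inl hxA
    · exact Or.inr ⟨hx, hxA⟩
  have h2 := (eq_fin.1 hG).2
  refine ((Cardinal.le_aleph0_iff_set_countable.1 h1).union h2.countable).mono ?_
  intro x hx
  by_cases hxA : x ∈ ρ.G A
  · exact Or.inl hxA
  · exact Or.inr ⟨hx, hxA⟩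

theorem main3 (hω : ∀ ψ : Quo ℵ₀ le_rfl ℕ ≃o Quo ℵ₀ le_rfl ℕ, IsTrivial ψ)
    (φ : Quo ℵ₀ le_rfl Om ≃o Quo ℵ₀ le_rfl Om) : HasNontrivialFixedPoint φ := by
  refine main1 φ fun A hA => ?_
  obtain ⟨B, hB⟩ := exists_cf (φ (cf A))
  exact trivialOn_of_omega hω φ hA
    (countable_of_omega hω φ (Cardinal.le_aleph0_iff_set_countable.1 hA.le) hB.symm) hB.symm

end Pool.Agent.W265.FP
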